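import Pool.Agent.Lib.MP_eee7a8_ag.TB.Iface4

/-!
# TAGBR, module BRDEG: degree of the function of a bracelet
-/

open Matrix

namespace Pool.Agent.Lib.MP_eee7a8_ag.TB.C29

variable {G : Subgroup SLZ} {K : Type} [Field K] [Algebra ℂ K]

theorem one_hom (L : Lam G K) : (1 : K) ∈ L.Hom 0 := Submodule.subset_span Lam.HM.one

theorem arc_hom (L : Lam G K)
    (mul : ∀ δ δ' x y, x ∈ L.Hom δ → y ∈ L.Hom δ' → x * y ∈ L.Hom (δ + δ'))
    (lam : ∀ a b, L.lam a b ∈ L.Hom (ends G a b))
    (v : ∀ a, L.v a ∈ L.Hom (-ends G a a)) (τ : TArc) : L.arc τ ∈ L.Hom (τ.deg G) := by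
  have h1 : ∀ (s : Bool) (a : Cusp), (if s then L.v a else 1 : K) ∈
      L.Hom (if s then -ends G a a else 0) := by
    intro s a
    cases s
    · simpa using one_hom L
    · simpa using v a
  have h2 := mul _ _ _ _ (mul _ _ _ _ (h1 τ.s τ.a) (h1 τ.t τ.b)) (lam τ.a τ.b)
  have h3 : ((if τ.s then -ends G τ.a τ.a else 0) + (if τ.t then -ends G τ.b τ.b else 0)) +
      ends G τ.a τ.b = τ.deg G := by
    funext z
    unfold TArc.deg ends
    cases τ.s <;> cases τ.t <;> simp only [Bool.false_eq_true, if_false, if_true, Pi.add_apply,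
      Pi.zero_apply, Pi.neg_apply] <;> ring
  rw [← h3]
  exact h2

theorem tk_hom (L : Lam G K)
    (mul : ∀ δ δ' x y, x ∈ L.Hom δ → y ∈ L.Hom δ' → x * y ∈ L.Hom (δ + δ')) {t : K}
    (ht : t ∈ L.Hom 0) : ∀ k : ℕ, tk t k ∈ L.Hom 0 ∧ tk t (k + 1) ∈ L.Hom 0 := by
  intro k
  induction k with
  | zero =>
    refine ⟨?_, ht⟩
    have h2 : (tk t 0 : K) = 1 + 1 := by
      show (2 : K) = 1 + 1
      norm_num
    rw [h2]
    exact Submodule.add_mem _ (one_hom L) (one_hom L)
  | succ k ih =>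
    refine ⟨ih.2, ?_⟩
    have h3 : tk t (k + 1 + 1) = t * tk t (k + 1) - tk t k := rfl
    rw [h3]
    refine Submodule.sub_mem _ ?_ ih.1
    have h4 := mul _ _ _ _ ht ih.2
    rwa [add_zero] at h4

theorem brdeg (h1 : GradStatement) : BrdegStatement := by
  intro G K _ _ L hG β
  obtain ⟨_, mul, lam, _, v, _, tr, _, _⟩ := h1 G K L hG
  have hA : ∀ s : Multiset TArc, (s.map L.arc).prod ∈ L.Hom (s.map (TArc.deg G)).sum := by
    intro s
    induction s using Multiset.induction_on with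
    | empty => simpa using one_hom L
    | cons τ s ih =>
      simp only [Multiset.map_cons, Multiset.prod_cons, Multiset.sum_cons]
      exact mul _ _ _ _ (arc_hom L mul lam v τ) ih
  have hL : ∀ l : List (SLZ × ℕ), (∀ p ∈ l, p.1 ∈ G ∧ 2 < |p.1.1.trace|) →
      (l.map (fun l => tk (L.tr l.1) l.2)).prod ∈ L.Hom 0 := by
    intro l
    induction l with
    | nil => intro _; simpa using one_hom L
    | cons p l ih =>
      intro hl
      rw [List.map_cons, List.prod_cons]
      have h2 := hl p (List.mem_cons_self ..)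
      have h3 := ih (fun q hq => hl q (List.mem_cons_of_mem _ hq))
      have h4 := mul _ _ _ _ (tk_hom L mul (tr p.1 h2.1 h2.2) p.2).1 h3
      rwa [add_zero] at h4
  have h5 := mul _ _ _ _ (hA β.arcs)
    (hL β.loops (fun p hp => ⟨(β.loop p hp).1.mem, (β.loop p hp).1.hyp⟩))
  rw [add_zero] at h5
  exact h5

end Pool.Agent.Lib.MP_eee7a8_ag.TB.C29
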