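import Pool.Agent.Lib.MP_eee7a8_ag.TB.Iface3

/-!
# TAGBR, module KERL0: the lattice `KerL` in degree zero
-/

open Matrix

namespace Pool.Agent.Lib.MP_eee7a8_ag.TB.C29

variable {G : Subgroup SLZ}

theorem sa_symm {a b c d : Cusp} (h : SameArc G a b c d) : SameArc G c d a b := by
  obtain ⟨g, hg, ⟨h1, h2⟩ | ⟨h1, h2⟩⟩ := h
  · exact ⟨g⁻¹, G.inv_mem hg, Or.inl ⟨by rw [← h1, inv_smul_smul], by rw [← h2, inv_smul_smul]⟩⟩
  · exact ⟨g⁻¹, G.inv_mem hg, Or.inr ⟨by rw [← h2, inv_smul_smul], by rw [← h1, inv_smul_smul]⟩⟩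

theorem sa_trans {a b c d e f : Cusp} (h : SameArc G a b c d) (h' : SameArc G c d e f) :
    SameArc G a b e f := by
  obtain ⟨g, hg, h1⟩ := h
  obtain ⟨k, hk, h2⟩ := h'
  refine ⟨k * g, G.mul_mem hk hg, ?_⟩
  rw [mul_smul, mul_smul]
  rcases h1 with ⟨h3, h4⟩ | ⟨h3, h4⟩ <;> rcases h2 with ⟨h5, h6⟩ | ⟨h5, h6⟩
  · exact Or.inl ⟨by rw [h3, h5], by rw [h4, h6]⟩
  · exact Or.inr ⟨by rw [h3, h5], by rw [h4, h6]⟩
  · exact Or.inr ⟨by rw [h3, h6], by rw [h4, h5]⟩
  · exact Or.inl ⟨by rw [h3, h6], by rw [h4, h5]⟩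

theorem sa_swap {a b c d : Cusp} (h : SameArc G a b c d) : SameArc G a b d c := by
  obtain ⟨g, hg, h1⟩ := h
  exact ⟨g, hg, h1.symm⟩

theorem sa_smul {a b : Cusp} {g : SLZ} (hg : g ∈ G) : SameArc G a b (g • a) (g • b) :=
  ⟨g, hg, Or.inl ⟨rfl, rfl⟩⟩

theorem E_symm {ι : Type} {T : Fam ι} {a b : Cusp} (h : T.E G a b) : T.E G b a := by
  obtain ⟨i, hi⟩ := h
  exact ⟨i, sa_swap hi⟩

theorem E_smul {ι : Type} {T : Fam ι} {a b : Cusp} {g : SLZ} (hg : g ∈ G) (h : T.E G a b) :
    T.E G (g • a) (g • b) := by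
  obtain ⟨i, hi⟩ := h
  exact ⟨i, sa_trans hi (sa_smul hg)⟩

theorem Ge_symm {e : Option (Cusp × Cusp)} {a b : Cusp} (h : Ge G e a b) : Ge G e b a := by
  obtain ⟨p, hp, h1⟩ := h
  exact ⟨p, hp, sa_swap h1⟩

open Classical in
theorem del_eq {ι : Type} {T : Fam ι} (hT : T.IsTri G) {i : ι} {a b : Cusp}
    (h : SameArc G (T.s i) (T.t i) a b) : T.del G a b = Pi.single i 1 := by
  have hE : T.E G a b := ⟨i, h⟩
  unfold Fam.del
  rw [dif_pos hE]
  have h1 := hE.choose_spec
  have h2 := hT.inj _ _ (sa_trans h1 (sa_symm h))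
  rw [h2]

theorem del_sa {ι : Type} {T : Fam ι} (hT : T.IsTri G) {a b c d : Cusp}
    (hE : T.E G a b) (h : SameArc G a b c d) : T.del G c d = T.del G a b := by
  obtain ⟨i, hi⟩ := hE
  rw [del_eq hT hi, del_eq hT (sa_trans hi h)]

/-! ## Degrees -/

open Classical in
/-- The indicator of the puncture of `a`. -/
noncomputable def en (G : Subgroup SLZ) (a z : Cusp) : ℤ := if ∃ g ∈ G, g • z = a then 1 else 0

theorem ends_eq (a b z : Cusp) : ends G a b z = en G a z + en G b z := rfl

theorem en_smul {g : SLZ} (hg : g ∈ G) (a z : Cusp) : en G (g • a) z = en G a z := by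
  unfold en
  congr 1
  apply propext
  constructor
  · rintro ⟨h, hh, e⟩
    exact ⟨g⁻¹ * h, G.mul_mem (G.inv_mem hg) hh, by rw [mul_smul, e, inv_smul_smul]⟩
  · rintro ⟨h, hh, e⟩
    exact ⟨g * h, G.mul_mem hg hh, by rw [mul_smul, e]⟩

theorem ends_sa {a b c d : Cusp} (h : SameArc G a b c d) (z : Cusp) :
    ends G c d z = ends G a b z := by
  obtain ⟨g, hg, ⟨h1, h2⟩ | ⟨h1, h2⟩⟩ := h
  · rw [ends_eq, ends_eq, ← h1, ← h2, en_smul hg, en_smul hg]
  · rw [ends_eq, ends_eq, ← h1, ← h2, en_smul hg, en_smul hg, add_comm]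

theorem degT_add {ι : Type} [Fintype ι] (T : Fam ι) (m m' : ι → ℤ) :
    degT G T (m + m') = degT G T m + degT G T m' := by
  funext z
  simp only [degT, Pi.add_apply, add_mul, Finset.sum_add_distrib]

theorem degT_smul {ι : Type} [Fintype ι] (T : Fam ι) (k : ℤ) (m : ι → ℤ) :
    degT G T (k • m) = k • degT G T m := by
  funext z
  simp only [degT, Pi.smul_apply, smul_eq_mul, Finset.mul_sum, mul_assoc]

theorem degT_sub {ι : Type} [Fintype ι] (T : Fam ι) (m m' : ι → ℤ) :
    degT G T (m - m') = degT G T m - degT G T m' := by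
  funext z
  simp only [degT, Pi.sub_apply, sub_mul, Finset.sum_sub_distrib]

theorem degT_del {ι : Type} [Fintype ι] {T : Fam ι} (hT : T.IsTri G) {a b : Cusp}
    (h : T.E G a b) (z : Cusp) : degT G T (T.del G a b) z = en G a z + en G b z := by
  classical
  obtain ⟨i, hi⟩ := h
  rw [del_eq hT hi, ← ends_eq, ends_sa hi]
  unfold degT
  rw [Finset.sum_eq_single i]
  · simp
  · intro j _ hj
    simp [hj]
  · intro h; exact absurd (Finset.mem_univ i) h

/-! ## The third vertices -/

theorem third {ι : Type} {T : Fam ι} (hT : T.IsTri G) {u v x c : Cusp} (hux : T.E G u x)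
    (hvx : T.E G v x) (huc : T.E G u c) (hvc : T.E G v c) (huv : T.E G u v)
    (hs : 0 < (dt u x * dt v x) * (dt u c * dt v c)) : c = x := by
  by_contra hne
  have hcx : dt c x ≠ 0 := dt_ne_zero hne
  have huv' : dt u v ≠ 0 := by
    obtain ⟨i, g, hg, h⟩ := huv
    have h1 := hT.ne i
    intro h2
    rw [dt_eq_zero] at h2
    apply h1
    rcases h with ⟨h3, h4⟩ | ⟨h3, h4⟩
    · rw [← h3, ← h4] at h2
      exact smul_left_cancel g h2
    · rw [← h3, ← h4] at h2
      exact (smul_left_cancel g h2).symm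
  have h1 : ¬ Cross u c x v := hT.nocross _ _ _ _ huc (E_symm hvx)
  have h2 : ¬ Cross v c x u := hT.nocross _ _ _ _ hvc (E_symm hux)
  unfold Cross at h1 h2
  have h3 := mul_nonneg (not_lt.1 h1) (not_lt.1 h2)
  have e : dt u x * dt c x * (dt u v * dt c v) * (dt v x * dt c x * (dt v u * dt c u)) =
      -((dt c x * dt c x) * (dt u v * dt u v) * ((dt u x * dt v x) * (dt u c * dt v c))) := by
    rw [dt_symm v u, dt_symm c v, dt_symm c u]; ring
  rw [e] at h3
  have h4 : 0 < (dt c x * dt c x) * (dt u v * dt u v) :=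
    mul_pos (mul_self_pos.2 hcx) (mul_self_pos.2 huv')
  have h5 := mul_pos h4 hs
  linarith

theorem kerl0 : Kerl0Statement := by
  classical
  intro G hG u v hadm ι _ T hgood
  have hT : T.IsTri G := hgood.toIsTri
  have hA := hadm (u, v) rfl
  have hGe : Ge G (some (u, v)) u v := ⟨(u, v), rfl, 1, G.one_mem, Or.inl ⟨one_smul _ _, one_smul _ _⟩⟩
  have huv : T.E G u v := hgood.mem u v hGe
  -- vertices on both sides
  have hside : ∀ x y c, Cross u v x y → T.E G u x → T.E G v x → T.E G u y → T.E G v y →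
      T.E G u c → T.E G v c → c = x ∨ c = y := by
    intro x y c hX h1 h2 h3 h4 h5 h6
    have hc : dt u c * dt v c ≠ 0 := by
      intro h
      have hnz : ∀ a b, T.E G a b → dt a b ≠ 0 := by
        intro a b hab h0
        obtain ⟨i, g, hg, h⟩ := hab
        have h1 := hT.ne i
        rw [dt_eq_zero] at h0
        apply h1
        rcases h with ⟨h3, h4⟩ | ⟨h3, h4⟩
        · rw [← h3, ← h4] at h0
          exact smul_left_cancel g h0
        · rw [← h3, ← h4] at h0
          exact (smul_left_cancel g h0).symm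
      rcases mul_eq_zero.1 h with h7 | h7
      · exact hnz _ _ h5 h7
      · exact hnz _ _ h6 h7
    unfold Cross at hX
    by_cases hp : 0 < (dt u x * dt v x) * (dt u c * dt v c)
    · exact Or.inl (third hT h1 h2 h5 h6 huv hp)
    · right
      apply third hT h3 h4 h5 h6 huv
      -- the signs of `x` and `y` are opposite
      generalize dt u x * dt v x = X at *
      generalize dt u y * dt v y = Y at *
      generalize dt u c * dt v c = C at *
      have hp' := not_lt.1 hp
      by_contra hn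
      have hn' := not_lt.1 hn
      have h7 : 0 ≤ (X * C) * (Y * C) := mul_nonneg_of_nonpos_of_nonpos hp' hn'
      have h8 : (X * C) * (Y * C) = (X * Y) * (C * C) := by ring
      rw [h8] at h7
      have h9 : 0 < C * C := mul_self_pos.2 hc
      have h10 := mul_neg_of_neg_of_pos hX h9
      linarith
  -- existence
  obtain ⟨x, y, hxu, hxv, hyu, hyv, hXc⟩ := hT.tri u v huv
  have hX : Cross u v x y := cross_swap.1 hXc
  refine ⟨⟨_, x, y, E_symm hxu, E_symm hxv, E_symm hyu, E_symm hyv, hX, rfl⟩, ?_⟩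
  clear hxu hxv hyu hyv hXc hX
  clear x y
  rintro z ⟨x, y, hux, hvx, huy, hvy, hX, rfl⟩
  have hvu : ∀ g ∈ G, g • v ≠ u := by
    intro g hg h
    exact hA.2 g⁻¹ (G.inv_mem hg) (by show g⁻¹ • u = v; rw [← h, inv_smul_smul])
  have hvx' : v ≠ x := by
    have h1 := hX.ne
    exact h1.2.2.2.1
  have hux' : u ≠ x := hX.ne.2.1
  have huy' : u ≠ y := hX.ne.2.2.1
  have hvy' : v ≠ y := hX.ne.2.2.2.2.1
  -- no side of the triangles is a translate of `e`
  have hn1 : ∀ w, T.E G u w → T.E G v w → v ≠ w → ¬ Ge G (some (u, v)) u w := by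
    intro w _ h2 h3 h4
    exact hgood.nofold v u w (Ge_symm hGe) h4 h3 h2
  have hn2 : ∀ w, T.E G u w → T.E G v w → u ≠ w → ¬ Ge G (some (u, v)) v w := by
    intro w h1 _ h3 h4
    exact hgood.nofold u v w hGe h4 h3 h1
  have hzero : ∀ a b, T.E G a b → ¬ Ge G (some (u, v)) a b → ∀ i, Ge G (some (u, v)) (T.s i) (T.t i) →
      T.del G a b i = 0 := by
    intro a b hab hn i hi
    obtain ⟨j, hj⟩ := hab
    rw [del_eq hT hj]
    by_cases hij : i = j
    · exfalso
      subst hij
      obtain ⟨p, hp, h1⟩ := hi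
      exact hn ⟨p, hp, sa_trans h1 hj⟩
    · simp [hij]
  -- generators
  have hgen : ∀ w, T.E G u w → T.E G v w →
      T.del G v w - T.del G u w ∈ KerL G (some (u, v)) T := by
    intro w h1 h2
    apply AddSubgroup.subset_closure
    exact ⟨v, u, w, Ge_symm hGe, h2, h1, rfl⟩
  refine ⟨?_, ?_, ?_, ?_, ?_⟩
  · have h1 := (KerL G (some (u, v)) T).sub_mem (hgen y huy hvy) (hgen x hux hvx)
    have e : T.del G u x + T.del G v y - T.del G v x - T.del G u y =
        T.del G v y - T.del G u y - (T.del G v x - T.del G u x) := by abel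
    rw [e]; exact h1
  · intro i hi
    show T.del G u x i + T.del G v y i - T.del G v x i - T.del G u y i = 0
    rw [hzero _ _ hux (hn1 x hux hvx hvx') i hi, hzero _ _ hvy (hn2 y huy hvy huy') i hi,
      hzero _ _ hvx (hn2 x hux hvx hux') i hi, hzero _ _ huy (hn1 y huy hvy hvy') i hi]
    norm_num
  · rw [degT_sub, degT_sub, degT_add]
    funext z
    show degT G T (T.del G u x) z + degT G T (T.del G v y) z - degT G T (T.del G v x) z -
      degT G T (T.del G u y) z = 0
    rw [degT_del hT hux, degT_del hT hvy, degT_del hT hvx, degT_del hT huy]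
    ring
  · rintro z' ⟨x', y', h1, h2, h3, h4, hX', rfl⟩
    have hxy' : x' ≠ y' := hX'.ne.2.2.2.2.2
    rcases hside x y x' hX hux hvx huy hvy h1 h2 with hx | hx <;>
    rcases hside x y y' hX hux hvx huy hvy h3 h4 with hy | hy
    · exact absurd (hx.trans hy.symm) hxy'
    · left; rw [hx, hy]
    · right; rw [hx, hy]; abel
    · exact absurd (hx.trans hy.symm) hxy'
  · -- the degree zero part
    have hform : ∀ ν ∈ KerL G (some (u, v)) T, ∃ i j : ℤ,
        ν = i • (T.del G v x - T.del G u x) + j • (T.del G v y - T.del G u y) := by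
      intro ν hν
      induction hν using AddSubgroup.closure_induction with
      | mem t ht =>
        obtain ⟨a, b, c, ⟨p, hp, hpab⟩, hac, hbc, rfl⟩ := ht
        obtain rfl : (u, v) = p := by simpa using hp
        obtain ⟨g, hg, ⟨ha, hb⟩ | ⟨ha, hb⟩⟩ := hpab
        · have e1 : T.E G u (g⁻¹ • c) := by
            have := E_smul (G.inv_mem hg) hac
            rwa [← ha, inv_smul_smul] at this
          have e2 : T.E G v (g⁻¹ • c) := by
            have := E_smul (G.inv_mem hg) hbc
            rwa [← hb, inv_smul_smul] at this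
          have d1 : T.del G a c = T.del G u (g⁻¹ • c) := by
            have := del_sa hT e1 (sa_smul hg)
            rwa [smul_inv_smul, show g • u = a from ha] at this
          have d2 : T.del G b c = T.del G v (g⁻¹ • c) := by
            have := del_sa hT e2 (sa_smul hg)
            rwa [smul_inv_smul, show g • v = b from hb] at this
          rw [d1, d2]
          rcases hside x y _ hX hux hvx huy hvy e1 e2 with h | h <;> rw [h]
          · exact ⟨-1, 0, by simp⟩
          · exact ⟨0, -1, by simp⟩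
        · have e1 : T.E G v (g⁻¹ • c) := by
            have := E_smul (G.inv_mem hg) hac
            rwa [← hb, inv_smul_smul] at this
          have e2 : T.E G u (g⁻¹ • c) := by
            have := E_smul (G.inv_mem hg) hbc
            rwa [← ha, inv_smul_smul] at this
          have d1 : T.del G a c = T.del G v (g⁻¹ • c) := by
            have := del_sa hT e1 (sa_smul hg)
            rwa [smul_inv_smul, show g • v = a from hb] at this
          have d2 : T.del G b c = T.del G u (g⁻¹ • c) := by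
            have := del_sa hT e2 (sa_smul hg)
            rwa [smul_inv_smul, show g • u = b from ha] at this
          rw [d1, d2]
          rcases hside x y _ hX hux hvx huy hvy e2 e1 with h | h <;> rw [h]
          · exact ⟨1, 0, by simp⟩
          · exact ⟨0, 1, by simp⟩
      | zero => exact ⟨0, 0, by simp⟩
      | add s t _ _ hs ht =>
        obtain ⟨i, j, rfl⟩ := hs
        obtain ⟨i', j', rfl⟩ := ht
        refine ⟨i + i', j + j', ?_⟩
        rw [add_smul, add_smul]; abel
      | neg s _ hs =>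
        obtain ⟨i, j, rfl⟩ := hs
        refine ⟨-i, -j, ?_⟩
        rw [neg_smul, neg_smul]; abel
    intro ν hν h0
    obtain ⟨i, j, rfl⟩ := hform ν hν
    rw [degT_add, degT_smul, degT_smul, degT_sub, degT_sub] at h0
    have h1 : i * (degT G T (T.del G v x) v - degT G T (T.del G u x) v) +
        j * (degT G T (T.del G v y) v - degT G T (T.del G u y) v) = 0 := h0
    rw [degT_del hT hux, degT_del hT hvy, degT_del hT hvx, degT_del hT huy] at h1
    have ev : en G v v = 1 := by
      unfold en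
      rw [if_pos ⟨1, G.one_mem, one_smul _ _⟩]
    have eu : en G u v = 0 := by
      unfold en
      rw [if_neg]
      rintro ⟨g, hg, h⟩
      exact hvu g hg h
    rw [ev, eu] at h1
    have h2 : i = -j := by linarith
    refine ⟨j, ?_⟩
    rw [h2, neg_smul, smul_sub, smul_sub, smul_sub, smul_sub, smul_add]
    abel

end Pool.Agent.Lib.MP_eee7a8_ag.TB.C29
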