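import Pool.Agent.Lib.MP_eee7a8_ag.TB.C29.Rule6

/-!
# TAGBR, module RULE2: an arc crossing a translate
-/

open Matrix

namespace Pool.Agent.Lib.MP_eee7a8_ag.TB.C29

/-- The real computation: `D1 + Dm = t D0`, `0 < D1 Dm < D0²`, `|D1| ≤ |Dm|`. -/
theorem rule2_core {D0 D1 Dm t : ℤ} (ht : 2 ≤ |t|) (hs : D1 + Dm = t * D0)
    (hp : 0 < D1 * Dm) (hq : D1 * Dm < D0 ^ 2) (hle : |D1| ≤ |Dm|) :
    (|D1| : ℝ) * rr (t : ℝ) < |(D0 : ℝ)| ∧ |t * D1 - D0| < |D0| ∧ |D1| < |D0| ∧ D1 ≠ 0 := by
  have hD1 : D1 ≠ 0 := by rintro rfl; simp at hp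
  have hDm : Dm ≠ 0 := by rintro rfl; simp at hp
  have hD0 : D0 ≠ 0 := by
    rintro rfl
    have : (0 : ℤ) ^ 2 = 0 := by norm_num
    rw [this] at hq
    linarith
  have a0 : 0 < |D0| := abs_pos.2 hD0
  have a1 : 0 < |D1| := abs_pos.2 hD1
  have am : 0 < |Dm| := abs_pos.2 hDm
  -- product and sum of the absolute values
  have p1 : |D1| * |Dm| < |D0| ^ 2 := by
    rw [← abs_mul, abs_of_pos hp, sq_abs]; exact hq
  have p2 : |D1| + |Dm| = |t| * |D0| := by
    rw [← abs_mul, ← hs]
    rcases lt_or_gt_of_ne hD1 with h | h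
    · have h' : Dm < 0 := by
        by_contra h2
        have := mul_nonneg (neg_nonneg.2 h.le) (not_lt.1 h2)
        linarith
      rw [abs_of_neg h, abs_of_neg h', abs_of_neg (by linarith)]; ring
    · have h' : 0 < Dm := by
        by_contra h2
        have := mul_nonneg h.le (neg_nonneg.2 (not_lt.1 h2))
        linarith
      rw [abs_of_pos h, abs_of_pos h', abs_of_pos (by linarith)]
  have p3 : |D1| < |D0| := by
    by_contra h
    have h1 := not_lt.1 h
    have h2 : |D0| ≤ |Dm| := le_trans h1 hle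
    have h3 : |D0| * |D0| ≤ |D1| * |Dm| := mul_le_mul h1 h2 a0.le a1.le
    nlinarith
  -- real numbers
  have ht' : (2 : ℝ) ≤ |(t : ℝ)| := by
    have : ((2 : ℤ) : ℝ) ≤ ((|t| : ℤ) : ℝ) := by exact_mod_cast ht
    push_cast at this
    exact this
  obtain ⟨r1, r2⟩ := rr_facts ht'
  have q1 : (|D1| : ℝ) * |(Dm : ℝ)| < |(D0 : ℝ)| ^ 2 := by exact_mod_cast p1
  have q2 : (|D1| : ℝ) + |(Dm : ℝ)| = |(t : ℝ)| * |(D0 : ℝ)| := by exact_mod_cast p2
  have q3 : (|D1| : ℝ) < |(D0 : ℝ)| := by exact_mod_cast p3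
  have q4 : (0 : ℝ) < |(D1 : ℝ)| := abs_pos.2 (by exact_mod_cast hD1)
  have q5 : (0 : ℝ) < |(D0 : ℝ)| := by exact_mod_cast a0
  rw [← r2] at q2
  have key : (|D1| : ℝ) * rr (t : ℝ) < |(D0 : ℝ)| := by
    generalize rr (t : ℝ) = x at *
    generalize (|D1| : ℝ) = a at *
    generalize |(Dm : ℝ)| = b at *
    generalize |(D0 : ℝ)| = d at *
    have hx0 : 0 < x := by linarith
    by_contra h
    have h1 := not_lt.1 h
    -- `(a - x d)(a - d / x) = a² - (x + 1/x) d a + d² > 0`
    have h2 : 0 < (a - x * d) * (a - x⁻¹ * d) := by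
      have h3 : (a - x * d) * (a - x⁻¹ * d) = d ^ 2 - a * b := by
        have h4 : b = (x + x⁻¹) * d - a := by linarith
        have h5 : x * x⁻¹ = 1 := mul_inv_cancel₀ hx0.ne'
        rw [h4]
        linear_combination d ^ 2 * h5
      rw [h3]; linarith
    have h3 : 0 ≤ a - x⁻¹ * d := by
      have h6 : x⁻¹ * d ≤ a := by
        rw [inv_mul_le_iff₀ hx0]
        linarith
      linarith
    have h4 : a - x * d < 0 := by
      have : d ≤ x * d := by nlinarith
      linarith
    have h5 := mul_nonneg (neg_nonneg.2 h4.le) h3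
    linarith
  refine ⟨key, ?_, p3, hD1⟩
  -- the second bound
  have sgn : 0 < t * D1 * D0 := by
    have e1 : t * D1 * D0 = D1 * (D1 + Dm) := by rw [hs]; ring
    rw [e1]
    have : D1 * (D1 + Dm) = D1 ^ 2 + D1 * Dm := by ring
    rw [this]
    positivity
  have up : |t * D1| < 2 * |D0| := by
    have h1 : |(t : ℝ)| * |(D1 : ℝ)| < 2 * |(D0 : ℝ)| := by
      rw [← r2]
      generalize rr (t : ℝ) = x at *
      generalize (|(D1 : ℝ)| : ℝ) = a at *
      generalize |(D0 : ℝ)| = d at *
      have h3 : x⁻¹ * a ≤ a := by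
        have : x⁻¹ ≤ 1 := inv_le_one_of_one_le₀ r1
        nlinarith
      have : (x + x⁻¹) * a = a * x + x⁻¹ * a := by ring
      rw [this]
      linarith
    rw [abs_mul]
    have h2 : ((|t| * |D1| : ℤ) : ℝ) < ((2 * |D0| : ℤ) : ℝ) := by
      push_cast
      exact h1
    exact_mod_cast h2
  rcases lt_or_gt_of_ne hD0 with h | h
  · have h1 : t * D1 < 0 := by
      by_contra h2
      have := mul_nonneg (not_lt.1 h2) (neg_nonneg.2 h.le)
      linarith
    rw [abs_of_neg h1, abs_of_neg h] at up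
    rw [abs_of_neg h, abs_lt]
    constructor <;> linarith
  · have h1 : 0 < t * D1 := by
      by_contra h2
      have := mul_nonneg (neg_nonneg.2 (not_lt.1 h2)) h.le
      linarith
    rw [abs_of_pos h1, abs_of_pos h] at up
    rw [abs_of_pos h, abs_lt]
    constructor <;> linarith

/-! ## The integers `D1`, `Dm` -/

/-- `det (g x, y)` for vectors. -/
def dd (g : SLZ) (x y : Cusp) : ℤ :=
  (g.1 0 0 * x.x + g.1 0 1 * x.y) * y.y - (g.1 1 0 * x.x + g.1 1 1 * x.y) * y.x

/-- `det (x, g y)` for vectors. -/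
def de (g : SLZ) (x y : Cusp) : ℤ :=
  x.x * (g.1 1 0 * y.x + g.1 1 1 * y.y) - x.y * (g.1 0 0 * y.x + g.1 0 1 * y.y)

theorem dt_dd (g : SLZ) (x y : Cusp) : dt (g • x) y = eps g x * dd g x y := by
  unfold dt dd
  rw [smul_x', smul_y']
  ring

theorem dt_de (g : SLZ) (x y : Cusp) : dt x (g • y) = eps g y * de g x y := by
  unfold dt de
  rw [smul_x', smul_y']
  ring

theorem dd_add_de (g : SLZ) (x y : Cusp) : dd g x y + de g x y = g.1.trace * dt x y := by
  unfold dd de dt
  rw [Matrix.trace_fin_two]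
  ring

theorem dt_side (g : SLZ) (x : Cusp) : dt x (g • x) = eps g x * side g x := by
  unfold dt side
  rw [smul_x', smul_y']
  ring

theorem side_side (g : SLZ) (x y : Cusp) :
    side g x * side g y = dt x y ^ 2 - dd g x y * de g x y := by
  have h := det_eq g
  unfold side dt dd de
  linear_combination (x.x * y.y - x.y * y.x) ^ 2 * h

theorem cross_dd (g : SLZ) (x y : Cusp) (h : Cross x y (g • x) (g • y)) :
    0 < dd g x y * de g x y ∧ dd g x y * de g x y < dt x y ^ 2 := by
  unfold Cross at h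
  rw [dt_side g x, dt_side g y, dt_symm y (g • x), dt_dd, dt_de] at h
  have e1 := eps_sq g x
  have e2 := eps_sq g y
  have h1 : eps g x * side g x * -(eps g x * dd g x y) *
      (eps g y * de g x y * (eps g y * side g y)) =
      -((eps g x * eps g x) * (eps g y * eps g y)) * ((side g x * side g y) *
        (dd g x y * de g x y)) := by ring
  rw [h1, e1, e2, side_side] at h
  have hD : 0 ≤ dt x y ^ 2 := sq_nonneg _
  generalize dd g x y * de g x y = P at *
  generalize dt x y ^ 2 = D at *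
  have h3 : 0 < (D - P) * P := by linarith
  constructor
  · by_contra hP
    have h2 := not_lt.1 hP
    have h4 := mul_nonneg (show 0 ≤ D - P by linarith) (neg_nonneg.2 h2)
    linarith
  · by_contra hP
    have h2 := not_lt.1 hP
    have h4 := mul_nonneg (show 0 ≤ P - D by linarith) (show 0 ≤ P by linarith)
    linarith

theorem dd_sq (g : SLZ) (x y : Cusp) :
    dt (g • g • x) y = eps g (g • x) * eps g x * (g.1.trace * dd g x y - dt x y) := by
  have h := det_eq g
  unfold dt dd
  rw [smul_x' g (g • x), smul_y' g (g • x), smul_x' g x, smul_y' g x, Matrix.trace_fin_two]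
  linear_combination (-(eps g (g • x) * eps g x) * (x.x * y.y - x.y * y.x)) * h

/-! ## The fixed cusp of a parabolic element -/

theorem exists_fix {g : SLZ} (hg : |g.1.trace| = 2) : ∃ a : Cusp, g • a = a := by
  obtain ⟨s, hs, hst⟩ : ∃ s : ℤ, s * s = 1 ∧ g.1 0 0 + g.1 1 1 = 2 * s := by
    rw [← Matrix.trace_fin_two]
    rcases abs_cases g.1.trace with ⟨h3, _⟩ | ⟨h3, _⟩
    · exact ⟨1, by norm_num, by omega⟩
    · exact ⟨-1, by norm_num, by omega⟩
  have hdet := det_eq g
  -- a nonzero vector with vanishing `side`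
  have key : ∀ X Y : ℤ, (X ≠ 0 ∨ Y ≠ 0) →
      X * (g.1 1 0 * X + g.1 1 1 * Y) - Y * (g.1 0 0 * X + g.1 0 1 * Y) = 0 →
      ∃ a : Cusp, g • a = a := by
    intro X Y hXY h0
    have hd : 0 < Int.gcd X Y := by
      rw [Int.gcd_pos_iff]
      exact hXY
    obtain ⟨X', Y', hcop, hX, hY⟩ := Int.exists_gcd_one hd
    have hd' : (Int.gcd X Y : ℤ) ≠ 0 := by exact_mod_cast hd.ne'
    generalize (Int.gcd X Y : ℤ) = d at *
    have hc : IsCoprime X' Y' := Int.isCoprime_iff_gcd_eq_one.2 hcop
    obtain ⟨e1, e2, e3⟩ := mk'_aux X' Y' hc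
    refine ⟨Cusp.mk' X' Y' hc, ?_⟩
    symm
    rw [← dt_eq_zero, dt_side]
    generalize Cusp.mk' X' Y' hc = a at *
    generalize (if 0 < Y' then (1 : ℤ) else if Y' < 0 then -1 else X') = e at *
    have he : e * e = 1 := by rcases e3 with h | h <;> rw [h] <;> norm_num
    have h1 : d ^ 2 * side g a = 0 := by
      have h2 : d ^ 2 * side g a = (e * e) * (d ^ 2 * side g a) := by rw [he, one_mul]
      rw [h2, ← h0]
      rw [hX, hY, ← e1, ← e2]
      unfold side
      ring
    have h3 : side g a = 0 := by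
      rcases mul_eq_zero.1 h1 with h4 | h4
      · exact absurd h4 (pow_ne_zero 2 hd')
      · exact h4
    rw [h3, mul_zero]
  by_cases h1 : g.1 0 0 - s = 0 ∧ g.1 1 0 = 0
  · -- `g = ± (1 n; 0 1)`
    refine key 1 0 (Or.inl one_ne_zero) ?_
    rw [h1.2]; ring
  · refine key (g.1 0 0 - s) (g.1 1 0) ?_ ?_
    · by_contra h2
      push Not at h2
      exact h1 h2
    · linear_combination (g.1 1 0) * hdet - (g.1 1 0) * hs - (g.1 1 0) * s * hst

/-- A `2 × 2` matrix of determinant one with an eigenvector of eigenvalue `e = ± 1` has trace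
`2 e`. -/
theorem trace_of_eigen {K : Type*} [Field K] (M : Matrix.SpecialLinearGroup (Fin 2) K)
    (w : Fin 2 → K) (hw : w 0 ≠ 0 ∨ w 1 ≠ 0) (e : K) (he : e * e = 1)
    (h : M.1 *ᵥ w = e • w) : M.1.trace = 2 * e := by
  have hdet : M.1 0 0 * M.1 1 1 - M.1 0 1 * M.1 1 0 = 1 := by
    have := M.2
    rwa [Matrix.det_fin_two] at this
  have h0 : M.1 0 0 * w 0 + M.1 0 1 * w 1 = e * w 0 := by
    have := congrFun h 0
    simpa [Matrix.mulVec, dotProduct, Fin.sum_univ_two] using this
  have h1 : M.1 1 0 * w 0 + M.1 1 1 * w 1 = e * w 1 := by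
    have := congrFun h 1
    simpa [Matrix.mulVec, dotProduct, Fin.sum_univ_two] using this
  rw [Matrix.trace_fin_two]
  -- the characteristic polynomial vanishes at `e`
  have h2 : ((M.1 0 0 - e) * (M.1 1 1 - e) - M.1 0 1 * M.1 1 0) = 0 := by
    rcases hw with h3 | h3
    · apply mul_right_cancel₀ h3
      linear_combination (M.1 1 1 - e) * h0 - M.1 0 1 * h1
    · apply mul_right_cancel₀ h3
      linear_combination (M.1 0 0 - e) * h1 - M.1 1 0 * h0
  have he0 : e ≠ 0 := by rintro rfl; simp at he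
  apply mul_left_cancel₀ he0
  linear_combination hdet + he - h2 - 2 * he

/-! ## The relation -/

variable {G : Subgroup SLZ} {K : Type} [Field K] [Algebra ℂ K]

theorem sl_lam (L : Lam G K) (a b : Cusp) : ∃ n : ℤ, L.lam a b = n * L.sl a b := by
  by_cases h : a = b
  · exact ⟨0, by rw [h, L.self]; simp⟩
  · refine ⟨Int.sign (dt a b), ?_⟩
    unfold Lam.sl
    rw [← mul_assoc, ← Int.cast_mul]
    have h1 : Int.sign (dt a b) * Int.sign (dt a b) = 1 := by
      rw [← Int.sign_mul]
      exact Int.sign_eq_one_iff_pos.2 (mul_self_pos.2 (dt_ne_zero h))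
    rw [h1]; simp

/-- `lam x y` is an integral combination of `tr (R g) lam (g x) y` and `lam (g g x) y`. -/
theorem lam_rel (L : Lam G K) (Rp : Rep L) (g : G) (x y : Cusp) : ∃ m n : ℤ,
    L.lam x y = m * ((Rp.R g).1.trace * L.lam ((g : SLZ) • x) y) +
      n * L.lam ((g : SLZ) • (g : SLZ) • x) y := by
  have hdet : (Rp.R g).1 0 0 * (Rp.R g).1 1 1 - (Rp.R g).1 0 1 * (Rp.R g).1 1 0 = 1 := by
    have := (Rp.R g).2
    rwa [Matrix.det_fin_two] at this
  have comp : ∀ (v : Cusp) (i : Fin 2), (Rp.R g).1 i 0 * Rp.W v 0 + (Rp.R g).1 i 1 * Rp.W v 1 =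
      ((eps g v : ℤ) : K) * Rp.W ((g : SLZ) • v) i := by
    intro v i
    have := congrFun (Rp.act g v) i
    simpa [Matrix.mulVec, dotProduct, Fin.sum_univ_two] using this
  have a0 := comp x 0
  have a1 := comp x 1
  have b0 := comp ((g : SLZ) • x) 0
  have b1 := comp ((g : SLZ) • x) 1
  have hxy := Rp.det x y
  have hgx := Rp.det ((g : SLZ) • x) y
  have hggx := Rp.det ((g : SLZ) • (g : SLZ) • x) y
  have he : ((eps g x : ℤ) : K) * ((eps g x : ℤ) : K) = 1 := by
    rw [← Int.cast_mul, eps_sq, Int.cast_one]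
  have main : L.sl x y = (Rp.R g).1.trace * (((eps g x : ℤ) : K) * L.sl ((g : SLZ) • x) y) -
      ((eps g x : ℤ) : K) * (((eps g ((g : SLZ) • x) : ℤ) : K) *
        L.sl ((g : SLZ) • (g : SLZ) • x) y) := by
    rw [← hxy, ← hgx, ← hggx, Matrix.trace_fin_two]
    generalize Rp.W ((g : SLZ) • (g : SLZ) • x) = w2 at *
    generalize Rp.W ((g : SLZ) • x) = w1 at *
    generalize Rp.W x = w0 at *
    generalize Rp.W y = w at *
    generalize ((eps g x : ℤ) : K) = e at *
    generalize ((eps g ((g : SLZ) • x) : ℤ) : K) = e' at *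
    generalize (Rp.R g).1 0 0 = p at *
    generalize (Rp.R g).1 0 1 = q at *
    generalize (Rp.R g).1 1 0 = r at *
    generalize (Rp.R g).1 1 1 = s at *
    -- `e * w1 = M w0`, `e' * w2 = M w1`
    have c0 : e * (e' * w2 0) = p * (p * w0 0 + q * w0 1) + q * (r * w0 0 + s * w0 1) := by
      rw [← b0]; linear_combination (-p) * a0 - q * a1
    have c1 : e * (e' * w2 1) = r * (p * w0 0 + q * w0 1) + s * (r * w0 0 + s * w0 1) := by
      rw [← b1]; linear_combination (-r) * a0 - s * a1
    linear_combination (-(w0 0 * w 1 - w0 1 * w 0)) * hdet + (p + s) * (w 1 * a0 - w 0 * a1) +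
      (w 1 * c0 - w 0 * c1)
  obtain ⟨n0, h0⟩ := sl_lam L x y
  refine ⟨n0 * (eps g x * Int.sign (dt ((g : SLZ) • x) y)),
    -(n0 * (eps g x * (eps g ((g : SLZ) • x) * Int.sign (dt ((g : SLZ) • (g : SLZ) • x) y)))), ?_⟩
  rw [h0, main]
  unfold Lam.sl
  push_cast
  ring

theorem int_mul_mem (S : Submodule ℂ K) (n : ℤ) {z : K} (hz : z ∈ S) : (n : K) * z ∈ S := by
  rw [← zsmul_eq_mul]
  exact zsmul_mem hz n

theorem W_pair (L : Lam G K) (x y : Cusp) : L.W ⟨[(x, y)], []⟩ = L.lam x y := by
  unfold Lam.W; simp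

theorem W_pair_one (L : Lam G K) (x y : Cusp) (g : SLZ) :
    L.W ⟨[(x, y)], [g]⟩ = L.tr g * L.lam x y := by
  unfold Lam.W; simp; ring

theorem rule2_aux (h1 : NcpStatement) (h2 : NclgStatement) (h3 : TraceStatement)
    (h4 : RepStatement) (h5 : NonzeroStatement) {G : Subgroup SLZ} (hG : IsSurface G)
    {e : Option (Cusp × Cusp)} (he : Adm G e) {x y : Cusp} {g : SLZ} (hg : g ∈ G)
    (hok : Wd.OK G e ⟨[(x, y)], []⟩) (hX : Cross x y (g • x) (g • y))
    (hle : |dt (g • x) y| ≤ |dt x (g • y)|) : Red G e ⟨[(x, y)], []⟩ := by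
  intro K _ _ L
  have hnc : NC G e x y := hok.nc (x, y) (by simp)
  have hnck := (h1 G hG e he).2 g hg x y hnc hX
  have hnc1 : NC G e (g • x) y := by simpa using hnck 1
  have hnc2 : NC G e (g • g • x) y := by
    have := hnck 2
    rwa [zpow_ofNat, pow_two, mul_smul] at this
  -- integers
  obtain ⟨p1, p2⟩ := cross_dd g x y hX
  have q1 : |dt (g • x) y| = |dd g x y| := by
    rw [dt_dd, abs_mul]
    rcases eps_or g x with h | h <;> rw [h] <;> simp
  have q2 : |dt x (g • y)| = |de g x y| := by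
    rw [dt_de, abs_mul]
    rcases eps_or g y with h | h <;> rw [h] <;> simp
  have q3 : |dt (g • g • x) y| = |g.1.trace * dd g x y - dt x y| := by
    rw [dd_sq, abs_mul, abs_mul]
    rcases eps_or g (g • x) with h | h <;> rcases eps_or g x with h' | h' <;> rw [h, h'] <;> simp
  obtain ⟨k1, k2, k3, k4⟩ := rule2_core (hG.tor g hg) (dd_add_de g x y) p1 p2
    (by rw [← q1, ← q2]; exact hle)
  have hne1 : g • x ≠ y := by
    intro h
    rw [← dt_eq_zero, dt_dd] at h
    rcases mul_eq_zero.1 h with h' | h'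
    · exact eps_ne_zero g x h'
    · exact k4 h'
  have val0 : Wd.val ⟨[(x, y)], []⟩ = |(dt x y : ℝ)| := by
    unfold Wd.val; simp
  obtain ⟨Rp⟩ := h4 G K L hG
  obtain ⟨m, n, hrel⟩ := lam_rel L Rp ⟨g, hg⟩ x y
  rw [W_pair, hrel]
  apply Submodule.add_mem
  · apply int_mul_mem
    rcases lt_or_eq_of_le (hG.tor g hg) with hyp | par
    · -- hyperbolic
      have htr := (h3 G K L hG g hg hyp).2.2.2.2.2.2 Rp ⟨g, hg⟩ rfl
      have hs : Int.sign g.1.trace * Int.sign g.1.trace = 1 := by
        rw [← Int.sign_mul]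
        refine Int.sign_eq_one_iff_pos.2 (mul_self_pos.2 ?_)
        intro h0
        rw [h0] at hyp
        simp at hyp
      have htr' : (Rp.R ⟨g, hg⟩).1.trace = ((Int.sign g.1.trace : ℤ) : K) * L.tr g := by
        rw [htr, ← mul_assoc, ← Int.cast_mul, hs, Int.cast_one, one_mul]
      rw [htr', mul_assoc]
      apply int_mul_mem
      rw [← W_pair_one]
      apply Submodule.subset_span
      refine ⟨⟨[(g • x, y)], [g]⟩, ⟨?_, ?_, ?_, ?_⟩, Or.inl ?_, rfl⟩
      · intro p hp
        rw [List.mem_singleton] at hp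
        rw [hp]
        exact hne1
      · intro p hp
        rw [List.mem_singleton] at hp
        rw [hp]
        exact hnc1
      · intro k hk
        rw [List.mem_singleton] at hk
        rw [hk]
        exact ⟨hg, hyp⟩
      · intro k hk
        rw [List.mem_singleton] at hk
        rw [hk]
        exact (h2 G hG e he).2.2 g hg x y hnc hX hyp
      · rw [val0]
        unfold Wd.val
        simp only [List.map_nil, List.prod_nil, List.map_cons, List.prod_cons, mul_one]
        rw [rho_eq]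
        have q1' : |(dt (g • x) y : ℝ)| = |(dd g x y : ℝ)| := by exact_mod_cast q1
        rw [q1']
        exact k1
    · -- parabolic
      obtain ⟨a, ha⟩ := exists_fix (g := g) par.symm
      have hW : Rp.W a 0 ≠ 0 ∨ Rp.W a 1 ≠ 0 := by
        by_contra hn
        push Not at hn
        have hao : ∃ b : Cusp, a ≠ b := by
          by_cases h : a = infty
          · refine ⟨zero, ?_⟩
            rw [h]
            intro h'
            have := congrArg Cusp.y h'
            simp [infty, zero] at this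
          · exact ⟨infty, h⟩
        obtain ⟨b, hb⟩ := hao
        have h6 := Rp.det a b
        rw [hn.1, hn.2] at h6
        unfold Lam.sl at h6
        have h7 : ((Int.sign (dt a b) : ℤ) : K) ≠ 0 := by
          have : Int.sign (dt a b) ≠ 0 := by
            intro h
            exact dt_ne_zero hb (Int.sign_eq_zero_iff_zero.1 h)
          have hcz : CharZero K := charZero_of_injective_algebraMap (algebraMap ℂ K).injective
          exact_mod_cast this
        have h8 := h5 G K L hG a b hb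
        apply mul_ne_zero h7 h8
        rw [← h6]; ring
      have hact := Rp.act ⟨g, hg⟩ a
      have ha' : ((⟨g, hg⟩ : G) : SLZ) • a = a := ha
      rw [ha'] at hact
      have htr := trace_of_eigen (Rp.R ⟨g, hg⟩) (Rp.W a) hW _ (by
        rw [← Int.cast_mul, eps_sq, Int.cast_one]) hact
      rw [htr]
      have e1 : (2 : K) * ((eps g a : ℤ) : K) * L.lam (g • x) y =
          ((2 * eps g a : ℤ) : K) * L.lam (g • x) y := by push_cast; ring
      have e2 : (2 : K) * ((eps ((⟨g, hg⟩ : G) : SLZ) a : ℤ) : K) *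
          L.lam (((⟨g, hg⟩ : G) : SLZ) • x) y = ((2 * eps g a : ℤ) : K) * L.lam (g • x) y := e1
      rw [e2]
      apply int_mul_mem
      rw [← W_pair]
      apply Submodule.subset_span
      refine ⟨⟨[(g • x, y)], []⟩, ⟨?_, ?_, by simp, by simp⟩, Or.inl ?_, rfl⟩
      · intro p hp
        rw [List.mem_singleton] at hp
        rw [hp]
        exact hne1
      · intro p hp
        rw [List.mem_singleton] at hp
        rw [hp]
        exact hnc1
      · rw [val0]
        unfold Wd.val
        simp only [List.map_nil, List.prod_nil, List.map_cons, List.prod_cons, mul_one]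
        rw [← q1] at k3
        exact_mod_cast k3
  · apply int_mul_mem
    by_cases h : g • g • x = y
    · have h0 : L.lam (((⟨g, hg⟩ : G) : SLZ) • ((⟨g, hg⟩ : G) : SLZ) • x) y = 0 := by
        have h' : ((⟨g, hg⟩ : G) : SLZ) • ((⟨g, hg⟩ : G) : SLZ) • x = y := h
        rw [h', L.self]
      rw [h0]
      exact Submodule.zero_mem _
    · have e1 : L.lam (((⟨g, hg⟩ : G) : SLZ) • ((⟨g, hg⟩ : G) : SLZ) • x) y =
        L.W ⟨[(g • g • x, y)], []⟩ := by rw [W_pair]
      rw [e1]
      apply Submodule.subset_span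
      refine ⟨⟨[(g • g • x, y)], []⟩, ⟨?_, ?_, by simp, by simp⟩, Or.inl ?_, rfl⟩
      · intro p hp
        rw [List.mem_singleton] at hp
        rw [hp]
        exact h
      · intro p hp
        rw [List.mem_singleton] at hp
        rw [hp]
        exact hnc2
      · rw [val0]
        unfold Wd.val
        simp only [List.map_nil, List.prod_nil, List.map_cons, List.prod_cons, mul_one]
        rw [← q3] at k2
        exact_mod_cast k2

theorem rule2 (h1 : NcpStatement) (h2 : NclgStatement) (h3 : TraceStatement)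
    (h4 : RepStatement) (h5 : NonzeroStatement) : Rule2Statement := by
  intro G hG e he x y g hg hok hX
  rcases le_total |dt (g • x) y| |dt x (g • y)| with hle | hle
  · exact rule2_aux h1 h2 h3 h4 h5 hG he hg hok hX hle
  · refine rule2_aux h1 h2 h3 h4 h5 hG he (G.inv_mem hg) hok ?_ ?_
    · rw [← cross_smul g, smul_inv_smul, smul_inv_smul]
      exact cross_swap.1 hX
    · rw [← abs_dt_smul g (g⁻¹ • x) y, smul_inv_smul, ← abs_dt_smul g x (g⁻¹ • y), smul_inv_smul]
      exact hle

end Pool.Agent.Lib.MP_eee7a8_ag.TB.C29
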