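import Pool.Agent.Lib.MP_eee7a8_ag.TB.Iface3

/-!
# TAGBR, module RULE6: the product of two powers of one element
-/

open Matrix

namespace Pool.Agent.Lib.MP_eee7a8_ag.TB.C29

/-! ## Powers of an element of `SL(2,ℤ)` -/

theorem ch_entry (g l : SLZ) (i j : Fin 2) :
    (g * l * l).1 i j = l.1.trace * (g * l).1 i j - g.1 i j := by
  have h := det_eq l
  rw [Matrix.trace_fin_two]
  simp only [Matrix.SpecialLinearGroup.coe_mul, Matrix.mul_apply, Fin.sum_univ_two]
  fin_cases j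
  · simp only [Fin.zero_eta]
    linear_combination (-(g.1 i 0)) * h
  · simp only [Fin.mk_one]
    linear_combination (-(g.1 i 1)) * h

theorem trace_ch (g l : SLZ) :
    (g * l * l).1.trace = l.1.trace * (g * l).1.trace - g.1.trace := by
  rw [Matrix.trace_fin_two (g * l * l).1, Matrix.trace_fin_two (g * l).1,
    Matrix.trace_fin_two g.1, ch_entry, ch_entry]
  ring

theorem side_ch (g l : SLZ) (v : Cusp) :
    side (g * l * l) v = l.1.trace * side (g * l) v - side g v := by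
  unfold side
  rw [ch_entry, ch_entry, ch_entry, ch_entry]
  ring

theorem pow_two_add (l : SLZ) (m : ℕ) : l ^ (m + 2) = l ^ m * l * l := by
  rw [pow_succ, pow_succ]

/-- The coefficients `U` with `side (l ^ m) = U m * side l`. -/
def uu (t : ℤ) : ℕ → ℤ
  | 0 => 0
  | 1 => 1
  | (k + 2) => t * uu t (k + 1) - uu t k

theorem side_pow (l : SLZ) (v : Cusp) : ∀ m : ℕ,
    side (l ^ m) v = uu l.1.trace m * side l v ∧
      side (l ^ (m + 1)) v = uu l.1.trace (m + 1) * side l v := by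
  intro m
  induction m with
  | zero =>
    constructor
    · unfold side uu
      simp
      ring
    · simp [uu]
  | succ m ih =>
    refine ⟨ih.2, ?_⟩
    rw [show m + 1 + 1 = m + 2 from rfl, pow_two_add, side_ch, ← pow_succ, ih.1, ih.2]
    show _ = (l.1.trace * uu l.1.trace (m + 1) - uu l.1.trace m) * side l v
    ring

theorem uu_grow {t : ℤ} (ht : 2 ≤ |t|) : ∀ m : ℕ, |uu t m| < |uu t (m + 1)| := by
  intro m
  induction m with
  | zero => simp [uu]
  | succ m ih =>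
    have h1 : uu t (m + 1 + 1) = t * uu t (m + 1) - uu t m := rfl
    rw [h1]
    have h2 : |t * uu t (m + 1)| - |uu t m| ≤ |t * uu t (m + 1) - uu t m| :=
      abs_sub_abs_le_abs_sub _ _
    rw [abs_mul] at h2
    have h3 : 2 * |uu t (m + 1)| ≤ |t| * |uu t (m + 1)| :=
      mul_le_mul_of_nonneg_right ht (abs_nonneg _)
    linarith

theorem uu_ne {t : ℤ} (ht : 2 ≤ |t|) {m : ℕ} (hm : 1 ≤ m) : uu t m ≠ 0 := by
  obtain ⟨k, rfl⟩ : ∃ k, m = k + 1 := ⟨m - 1, by omega⟩
  have h1 := uu_grow ht k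
  have h2 := abs_nonneg (uu t k)
  intro h0
  rw [h0, abs_zero] at h1
  omega

theorem trace_pow (l : SLZ) : ∀ m : ℕ,
    (l ^ m).1.trace = tk l.1.trace m ∧ (l ^ (m + 1)).1.trace = tk l.1.trace (m + 1) := by
  intro m
  induction m with
  | zero =>
    constructor
    · rw [pow_zero, Matrix.trace_fin_two]
      simp [tk]
    · simp [tk]
  | succ m ih =>
    refine ⟨ih.2, ?_⟩
    rw [show m + 1 + 1 = m + 2 from rfl, pow_two_add, trace_ch, ← pow_succ, ih.1, ih.2]
    rfl

/-- Closed form of `tk`. -/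
theorem tk_closed {R : Type*} [CommRing R] (a b s : R) (hab : a * b = 1) (hs : s * s = 1) :
    ∀ m : ℕ, tk (s * (a + b)) m = s ^ m * (a ^ m + b ^ m) ∧
      tk (s * (a + b)) (m + 1) = s ^ (m + 1) * (a ^ (m + 1) + b ^ (m + 1)) := by
  intro m
  induction m with
  | zero =>
    constructor
    · simp only [tk, pow_zero, one_mul]
      norm_num
    · simp [tk]
  | succ m ih =>
    refine ⟨ih.2, ?_⟩
    have h1 : tk (s * (a + b)) (m + 1 + 1) =
      (s * (a + b)) * tk (s * (a + b)) (m + 1) - tk (s * (a + b)) m := rfl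
    rw [h1, ih.1, ih.2]
    have e1 : (s * (a + b)) * (s ^ (m + 1) * (a ^ (m + 1) + b ^ (m + 1))) =
        s ^ (m + 1 + 1) * (a ^ (m + 1 + 1) + b ^ (m + 1 + 1)) +
          (s * s) * s ^ m * ((a * b) * (a ^ m + b ^ m)) := by ring
    rw [e1, hab, hs]
    ring

/-! ## The spectral radius -/

/-- `rho` as a function of the trace. -/
noncomputable def rr (t : ℝ) : ℝ := (|t| + Real.sqrt (t ^ 2 - 4)) / 2

theorem rho_eq (g : SLZ) : rho g = rr ((g.1.trace : ℤ) : ℝ) := rfl

theorem rr_facts {t : ℝ} (ht : 2 ≤ |t|) :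
    1 ≤ rr t ∧ rr t + (rr t)⁻¹ = |t| := by
  have h0 : 0 ≤ t ^ 2 - 4 := by
    rw [← sq_abs]; nlinarith
  have h1 := Real.sqrt_nonneg (t ^ 2 - 4)
  have h2 : Real.sqrt (t ^ 2 - 4) ^ 2 = t ^ 2 - 4 := Real.sq_sqrt h0
  have h3 : 1 ≤ rr t := by unfold rr; linarith
  refine ⟨h3, ?_⟩
  have h4 : rr t ≠ 0 := by linarith
  have h5 : rr t * rr t + 1 = |t| * rr t := by
    unfold rr
    have h6 : |t| ^ 2 = t ^ 2 := sq_abs t
    linear_combination (1 / 4 : ℝ) * h2 - (1 / 4 : ℝ) * h6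
  field_simp
  linarith

/-- If `|t| = x + 1/x` with `1 ≤ x` then `rr t = x`. -/
theorem rr_of {t x : ℝ} (hx : 1 ≤ x) (h : |t| = x + x⁻¹) : rr t = x := by
  have hx0 : 0 < x := by linarith
  have h1 : t ^ 2 - 4 = (x - x⁻¹) ^ 2 := by
    rw [← sq_abs, h]
    have : x * x⁻¹ = 1 := mul_inv_cancel₀ hx0.ne'
    linear_combination 4 * this
  have h2 : 0 ≤ x - x⁻¹ := by
    have : x⁻¹ ≤ 1 := inv_le_one_of_one_le₀ hx
    linarith
  unfold rr
  rw [h1, Real.sqrt_sq h2, h]
  ring

theorem rr_tk {t : ℝ} (ht : 2 ≤ |t|) (m : ℕ) : rr (tk t m) = rr t ^ m := by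
  obtain ⟨h1, h2⟩ := rr_facts ht
  have hx0 : 0 < rr t := by linarith
  obtain ⟨s, hs, hst⟩ : ∃ s : ℝ, s * s = 1 ∧ t = s * (rr t + (rr t)⁻¹) := by
    rw [h2]
    rcases abs_cases t with ⟨h, _⟩ | ⟨h, _⟩
    · exact ⟨1, by norm_num, by rw [h]; ring⟩
    · exact ⟨-1, by norm_num, by rw [h]; ring⟩
  have h3 := (tk_closed (rr t) (rr t)⁻¹ s (mul_inv_cancel₀ hx0.ne') hs m).1
  rw [← hst] at h3
  apply rr_of (one_le_pow₀ h1)
  rw [h3, abs_mul, abs_pow]
  have h4 : |s| = 1 := by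
    have : |s| * |s| = 1 := by rw [← abs_mul, hs, abs_one]
    nlinarith [abs_nonneg s]
  have h5 : (0 : ℝ) < rr t ^ m + (rr t)⁻¹ ^ m := by positivity
  rw [h4, one_pow, one_mul, abs_of_pos h5, inv_pow]

theorem cast_tk (t : ℤ) : ∀ m : ℕ, ((tk t m : ℤ) : ℝ) = tk (t : ℝ) m ∧
    ((tk t (m + 1) : ℤ) : ℝ) = tk (t : ℝ) (m + 1) := by
  intro m
  induction m with
  | zero => constructor <;> simp [tk]
  | succ m ih =>
    refine ⟨ih.2, ?_⟩
    have h1 : tk t (m + 1 + 1) = t * tk t (m + 1) - tk t m := rfl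
    have h2 : tk (t : ℝ) (m + 1 + 1) = t * tk (t : ℝ) (m + 1) - tk (t : ℝ) m := rfl
    rw [h1, h2, ← ih.1, ← ih.2]
    push_cast
    ring

theorem rho_pow {l : SLZ} (hl : 2 ≤ |l.1.trace|) (m : ℕ) : rho (l ^ m) = rho l ^ m := by
  rw [rho_eq, rho_eq, (trace_pow l m).1, (cast_tk _ m).1]
  apply rr_tk
  have : ((2 : ℤ) : ℝ) ≤ ((|l.1.trace| : ℤ) : ℝ) := by exact_mod_cast hl
  push_cast at this
  exact this

theorem rr_neg (t : ℝ) : rr (-t) = rr t := by
  unfold rr
  rw [abs_neg, neg_sq]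

theorem trace_neg' (g : SLZ) : (-g).1.trace = -g.1.trace := by
  rw [Matrix.trace_fin_two, Matrix.trace_fin_two]
  simp only [Matrix.SpecialLinearGroup.coe_neg, Matrix.neg_apply]
  ring

theorem trace_inv' (h : SLZ) : (h⁻¹).1.trace = h.1.trace := by
  rw [Matrix.trace_fin_two, Matrix.trace_fin_two]
  simp only [Matrix.SpecialLinearGroup.coe_inv, Matrix.adjugate_fin_two, Matrix.of_apply,
    Matrix.cons_val', Matrix.cons_val_zero, Matrix.cons_val_one, Matrix.cons_val_fin_one]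
  ring

theorem trace_conj' (g h : SLZ) : (g * h * g⁻¹).1.trace = h.1.trace := by
  have : (g * h * g⁻¹).1 = g.1 * h.1 * (g⁻¹).1 := rfl
  rw [this, Matrix.trace_mul_comm, ← Matrix.mul_assoc]
  have h2 : (g⁻¹).1 * g.1 = 1 := by
    have : (g⁻¹ * g).1 = (g⁻¹).1 * g.1 := rfl
    rw [← this, inv_mul_cancel]; rfl
  rw [h2, Matrix.one_mul]

theorem rho_neg (g : SLZ) : rho (-g) = rho g := by
  rw [rho_eq, rho_eq, trace_neg']
  push_cast
  exact rr_neg _

theorem rho_inv (g : SLZ) : rho g⁻¹ = rho g := by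
  rw [rho_eq, rho_eq, trace_inv']

theorem rho_conj (g h : SLZ) : rho (g * h * g⁻¹) = rho h := by
  rw [rho_eq, rho_eq, trace_conj']

theorem one_lt_rho {g : SLZ} (hg : 2 < |g.1.trace|) : 1 < rho g := by
  rw [rho_eq]
  have h1 : (3 : ℝ) ≤ |((g.1.trace : ℤ) : ℝ)| := by
    have : (3 : ℤ) ≤ |g.1.trace| := by omega
    have h2 : ((3 : ℤ) : ℝ) ≤ ((|g.1.trace| : ℤ) : ℝ) := by exact_mod_cast this
    push_cast at h2
    exact h2
  have := Real.sqrt_nonneg (((g.1.trace : ℤ) : ℝ) ^ 2 - 4)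
  unfold rr
  linarith

/-! ## Traces `tk` -/

/-- `tk t (i + d) * tk t i = tk t (2 i + d) + tk t d`. -/
theorem tk_mul {R : Type*} [CommRing R] (t : R) (d : ℕ) : ∀ i : ℕ,
    tk t (i + d) * tk t i = tk t (2 * i + d) + tk t d ∧
    tk t (i + 1 + d) * tk t (i + 1) = tk t (2 * (i + 1) + d) + tk t d ∧
    tk t (i + 1 + d) * tk t i = tk t (2 * i + d + 1) + tk t (d + 1) ∧
    tk t (i + d) * tk t (i + 1) = tk t (2 * i + d + 1) + t * tk t d - tk t (d + 1) := by
  have hrec : ∀ n : ℕ, tk t (n + 2) = t * tk t (n + 1) - tk t n := by intro n; rfl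
  intro i
  induction i with
  | zero =>
    have h0 : tk t 0 = (2 : R) := rfl
    have h1 : tk t 1 = t := rfl
    refine ⟨?_, ?_, ?_, ?_⟩
    · rw [h0]; simp only [Nat.mul_zero, Nat.zero_add]; ring
    · rw [Nat.zero_add, h1, show 1 + d = d + 1 from by ring,
        show 2 * 1 + d = d + 2 from by ring, hrec]; ring
    · rw [h0]; simp only [Nat.mul_zero, Nat.zero_add]; rw [show 1 + d = d + 1 from by ring]; ring
    · simp only [Nat.mul_zero, Nat.zero_add]; rw [h1]; ring
  | succ i ih =>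
    obtain ⟨a1, a2, a3, a4⟩ := ih
    have r1 : tk t (i + 2) = t * tk t (i + 1) - tk t i := hrec i
    have r2 : tk t (i + 2 + d) = t * tk t (i + 1 + d) - tk t (i + d) := by
      rw [show i + 2 + d = (i + d) + 2 from by ring, hrec,
        show i + d + 1 = i + 1 + d from by ring]
    have r3 : tk t (2 * i + d + 2) = t * tk t (2 * i + d + 1) - tk t (2 * i + d) := hrec _
    have r4 : tk t (2 * i + d + 3) = t * tk t (2 * i + d + 2) - tk t (2 * i + d + 1) := hrec _
    have r5 : tk t (2 * i + d + 4) = t * tk t (2 * i + d + 3) - tk t (2 * i + d + 2) := hrec _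
    have e1 : 2 * (i + 1) + d = 2 * i + d + 2 := by ring
    have e2 : 2 * (i + 1 + 1) + d = 2 * i + d + 4 := by ring
    rw [e1] at a2
    refine ⟨?_, ?_, ?_, ?_⟩
    · rw [e1]; exact a2
    · rw [e2, show i + 1 + 1 + d = i + 2 + d from by ring, show i + 1 + 1 = i + 2 from rfl, r1, r2]
      linear_combination t ^ 2 * a2 - t * a3 - t * a4 + a1 - t * r4 - r5 + r3
    · rw [show i + 1 + 1 + d = i + 2 + d from by ring, r2,
        show 2 * (i + 1) + d + 1 = 2 * i + d + 3 from by ring]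
      linear_combination t * a2 - a4 - r4
    · rw [show i + 1 + 1 = i + 2 from rfl, r1,
        show 2 * (i + 1) + d + 1 = 2 * i + d + 3 from by ring]
      linear_combination t * a2 - a3 - r4

/-- The case `i ≤ j` and `i = j` uniformly: `tk i * tk j = tk (i + j) + tk |i - j|`. -/
theorem tk_mul' {R : Type*} [CommRing R] (t : R) {i j : ℕ} (h : i ≤ j) :
    tk t j * tk t i = tk t (i + j) + tk t (j - i) := by
  obtain ⟨d, rfl⟩ := Nat.exists_eq_add_of_le h
  have := (tk_mul t d i).1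
  rw [this, show i + (i + d) = 2 * i + d from by ring, show i + d - i = d from by omega]

/-! ## Hyperbolic powers -/

theorem two_lt_of_pow {G : Subgroup SLZ} (hG : IsSurface G) {l : SLZ} (hl : l ∈ G) {i : ℕ}
    (h : 2 < |(l ^ i).1.trace|) : 2 < |l.1.trace| := by
  by_contra hn
  have h1 := hG.tor l hl
  have h2 : |l.1.trace| = 2 := by omega
  obtain ⟨s, hs, hst⟩ : ∃ s : ℤ, s * s = 1 ∧ l.1.trace = s * (1 + 1) := by
    rcases abs_cases l.1.trace with ⟨h3, _⟩ | ⟨h3, _⟩
    · exact ⟨1, by norm_num, by omega⟩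
    · exact ⟨-1, by norm_num, by omega⟩
  have h3 := (tk_closed (1 : ℤ) 1 s (by norm_num) hs i).1
  rw [(trace_pow l i).1, hst, h3, abs_mul, abs_pow] at h
  have h4 : |s| = 1 := by
    rcases Int.mul_eq_one_iff_eq_one_or_neg_one.1 hs with ⟨h5, _⟩ | ⟨h5, _⟩ <;> rw [h5] <;> norm_num
  rw [h4] at h
  simp at h

theorem trace_pow_gt {l : SLZ} (hl : 2 < |l.1.trace|) {m : ℕ} (hm : 1 ≤ m) :
    2 < |(l ^ m).1.trace| := by
  by_contra hn
  have h1 : |((l ^ m).1.trace : ℝ)| ≤ 2 := by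
    have : |(l ^ m).1.trace| ≤ 2 := by omega
    have h2 : ((|(l ^ m).1.trace| : ℤ) : ℝ) ≤ ((2 : ℤ) : ℝ) := by exact_mod_cast this
    push_cast at h2
    exact h2
  have h2 : ((2 : ℤ) : ℝ) ≤ ((|l.1.trace| : ℤ) : ℝ) := by exact_mod_cast hl.le
  push_cast at h2
  have h3 := rr_tk h2 m
  obtain ⟨h4, h5⟩ := rr_facts h2
  have h6 : 1 < rr (l.1.trace : ℝ) := one_lt_rho hl
  rw [(trace_pow l m).1, (cast_tk _ m).1] at h1
  obtain ⟨s, hs, hst⟩ : ∃ s : ℝ, s * s = 1 ∧
      (l.1.trace : ℝ) = s * (rr (l.1.trace : ℝ) + (rr (l.1.trace : ℝ))⁻¹) := by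
    rw [h5]
    rcases abs_cases (l.1.trace : ℝ) with ⟨h, _⟩ | ⟨h, _⟩
    · exact ⟨1, by norm_num, by rw [h]; ring⟩
    · exact ⟨-1, by norm_num, by rw [h]; ring⟩
  generalize rr (l.1.trace : ℝ) = x at *
  have hx0 : 0 < x := by linarith
  have h7 := (tk_closed x x⁻¹ s (mul_inv_cancel₀ hx0.ne') hs m).1
  rw [← hst] at h7
  rw [h7, abs_mul, abs_pow] at h1
  have h8 : |s| = 1 := by
    have : |s| * |s| = 1 := by rw [← abs_mul, hs, abs_one]
    nlinarith [abs_nonneg s]
  rw [h8, one_pow, one_mul, inv_pow] at h1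
  have h9 : 1 < x ^ m := one_lt_pow₀ h6 (by omega)
  generalize x ^ m = y at *
  have hy0 : 0 < y := by linarith
  have h10 : 2 < y + y⁻¹ := by
    have h11 : 0 < (y - 1) ^ 2 / y := by
      have : 0 < (y - 1) ^ 2 := by
        apply sq_pos_of_pos; linarith
      positivity
    have h12 : (y - 1) ^ 2 / y = y + y⁻¹ - 2 := by
      field_simp
      ring
    linarith
  have h13 := le_abs_self (y + y⁻¹)
  linarith

theorem ncl_pow {G : Subgroup SLZ} {e : Option (Cusp × Cusp)} {l : SLZ} {i m : ℕ}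
    (hl : 2 ≤ |l.1.trace|) (hm : 1 ≤ m) (h : NCL G e (l ^ i)) : NCL G e (l ^ m) := by
  intro c d hcd
  have h1 := h c d hcd
  rw [(side_pow l c i).1, (side_pow l d i).1] at h1
  rw [(side_pow l c m).1, (side_pow l d m).1]
  have h2 : 0 < (uu l.1.trace i * uu l.1.trace i) * (side l c * side l d) := by
    have e1 : uu l.1.trace i * side l c * (uu l.1.trace i * side l d) =
      (uu l.1.trace i * uu l.1.trace i) * (side l c * side l d) := by ring
    rw [← e1]; exact h1
  have h3 : 0 < side l c * side l d := by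
    by_contra h4
    have h5 := mul_nonneg (mul_self_nonneg (uu l.1.trace i)) (neg_nonneg.2 (not_lt.1 h4))
    rw [mul_neg] at h5
    linarith
  have h4 : 0 < uu l.1.trace m * uu l.1.trace m := mul_self_pos.2 (uu_ne hl hm)
  have e2 : uu l.1.trace m * side l c * (uu l.1.trace m * side l d) =
      (uu l.1.trace m * uu l.1.trace m) * (side l c * side l d) := by ring
  rw [e2]
  exact mul_pos h4 h3

theorem side_neg' (h : SLZ) (v : Cusp) : side (-h) v = -side h v := by
  unfold side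
  simp only [Matrix.SpecialLinearGroup.coe_neg, Matrix.neg_apply]
  ring

theorem W_two {G : Subgroup SLZ} {K : Type} [Field K] [Algebra ℂ K] (L : Lam G K) (h k : SLZ) :
    L.W ⟨[], [h, k]⟩ = L.tr h * L.tr k := by
  unfold Lam.W; simp

theorem W_one {G : Subgroup SLZ} {K : Type} [Field K] [Algebra ℂ K] (L : Lam G K) (h : SLZ) :
    L.W ⟨[], [h]⟩ = L.tr h := by
  unfold Lam.W; simp

theorem W_nil {G : Subgroup SLZ} {K : Type} [Field K] [Algebra ℂ K] (L : Lam G K) :
    L.W ⟨[], []⟩ = 1 := by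
  unfold Lam.W; simp

/-- The main step: `0 < i ≤ j`, traces of `h`, `k` are those of `l ^ i`, `l ^ j`. -/
theorem rule6_aux (tc : TraceStatement) {G : Subgroup SLZ} (hG : IsSurface G)
    {e : Option (Cusp × Cusp)} {l : SLZ} (hl : l ∈ G) (hl2 : 2 < |l.1.trace|) {i j q : ℕ}
    (hi : 1 ≤ i) (hij : i ≤ j) (hn : NCL G e (l ^ q)) {v : ℝ} {n : ℕ}
    (hv : v = rho (l ^ i) * rho (l ^ j)) (hn2 : 1 < n)
    (K : Type) [Field K] [Algebra ℂ K] (L : Lam G K) :
    L.tr (l ^ j) * L.tr (l ^ i) ∈ Submodule.span ℂ {z : K | ∃ w' : Wd, w'.OK G e ∧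
      (w'.val < v ∨ (w'.val = v ∧ w'.len < n)) ∧ z = L.W w'} := by
  obtain ⟨_, _, t3, _⟩ := tc G K L hG l hl hl2
  have hr1 := one_lt_rho hl2
  have hv' : v = rho l ^ (i + j) := by
    rw [hv, rho_pow hl2.le, rho_pow hl2.le, pow_add]
  rw [t3 i hi, t3 j (by omega), tk_mul' _ hij]
  apply Submodule.add_mem
  · rw [← t3 (i + j) (by omega), ← W_one L]
    apply Submodule.subset_span
    refine ⟨⟨[], [l ^ (i + j)]⟩, ⟨by simp, by simp, ?_, ?_⟩, Or.inr ⟨?_, ?_⟩, rfl⟩
    · intro g hg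
      rw [List.mem_singleton] at hg
      rw [hg]
      exact ⟨G.pow_mem hl _, trace_pow_gt hl2 (by omega)⟩
    · intro g hg
      rw [List.mem_singleton] at hg
      rw [hg]
      exact ncl_pow hl2.le (by omega) hn
    · unfold Wd.val
      simp only [List.map_nil, List.prod_nil, List.map_cons, List.prod_cons, one_mul, mul_one]
      rw [rho_pow hl2.le, hv']
    · unfold Wd.len
      simpa using hn2
  · by_cases hij' : i = j
    · subst hij'
      rw [Nat.sub_self]
      have h0 : tk (L.tr l) 0 = L.W ⟨[], []⟩ + L.W ⟨[], []⟩ := by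
        rw [W_nil]
        show (2 : K) = 1 + 1
        norm_num
      rw [h0]
      have h1 : L.W ⟨[], []⟩ ∈ Submodule.span ℂ {z : K | ∃ w' : Wd, w'.OK G e ∧
          (w'.val < v ∨ (w'.val = v ∧ w'.len < n)) ∧ z = L.W w'} := by
        apply Submodule.subset_span
        refine ⟨⟨[], []⟩, ⟨by simp, by simp, by simp, by simp⟩, Or.inl ?_, rfl⟩
        unfold Wd.val
        simp only [List.map_nil, List.prod_nil, one_mul]
        rw [hv']
        exact one_lt_pow₀ hr1 (by omega)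
      exact Submodule.add_mem _ h1 h1
    · rw [← t3 (j - i) (by omega), ← W_one L]
      apply Submodule.subset_span
      refine ⟨⟨[], [l ^ (j - i)]⟩, ⟨by simp, by simp, ?_, ?_⟩, Or.inl ?_, rfl⟩
      · intro g hg
        rw [List.mem_singleton] at hg
        rw [hg]
        exact ⟨G.pow_mem hl _, trace_pow_gt hl2 (by omega)⟩
      · intro g hg
        rw [List.mem_singleton] at hg
        rw [hg]
        exact ncl_pow hl2.le (by omega) hn
      · unfold Wd.val
        simp only [List.map_nil, List.prod_nil, List.map_cons, List.prod_cons, one_mul, mul_one]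
        rw [rho_pow hl2.le, hv']
        exact pow_lt_pow_right₀ hr1 (by omega)

theorem rule6 (tc : TraceStatement) : Rule6Statement := by
  intro G hG e he l hl g hg i j h k hi hj hh hk hok K _ _ L
  have hh2 : h ∈ G ∧ 2 < |h.1.trace| := hok.mem h (by simp)
  have hk2 : k ∈ G ∧ 2 < |k.1.trace| := hok.mem k (by simp)
  have hnh : NCL G e h := hok.ncl h (by simp)
  -- the power `l ^ i` is hyperbolic and does not cross `e`
  have a1 : 2 < |(l ^ i).1.trace| := by
    rcases hh with rfl | rfl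
    · exact hh2.2
    · have := hh2.2
      rwa [trace_neg', abs_neg] at this
  have a2 : NCL G e (l ^ i) := by
    rcases hh with rfl | rfl
    · exact hnh
    · intro c d hcd
      have := hnh c d hcd
      rw [side_neg', side_neg', neg_mul_neg] at this
      exact this
  have a3 : rho h = rho (l ^ i) := by
    rcases hh with rfl | rfl
    · rfl
    · exact rho_neg _
  have hl2 := two_lt_of_pow hG hl a1
  have a4 : L.tr h = L.tr (l ^ i) := by
    rcases hh with rfl | rfl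
    · rfl
    · exact (tc G K L hG (l ^ i) (G.pow_mem hl _) a1).2.2.2.2.1
  have hlj := trace_pow_gt hl2 hj
  have b3 : rho k = rho (l ^ j) := by
    rw [← rho_conj g k]
    rcases hk with h1 | h1 | h1 | h1
    · rw [h1]
    · rw [h1, rho_neg]
    · rw [h1, inv_pow, rho_inv]
    · rw [h1, rho_neg, inv_pow, rho_inv]
  have b4 : L.tr k = L.tr (l ^ j) := by
    have h0 := (tc G K L hG k hk2.1 hk2.2).2.2.2.1 g hg
    rw [← h0]
    have c1 := (tc G K L hG (l ^ j) (G.pow_mem hl _) hlj).2.2.2.2.1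
    have c2 := (tc G K L hG (l ^ j) (G.pow_mem hl _) hlj).2.2.2.2.2.1
    have hinv : 2 < |((l ^ j)⁻¹).1.trace| := by rw [trace_inv']; exact hlj
    have c3 := (tc G K L hG (l ^ j)⁻¹ (G.inv_mem (G.pow_mem hl _)) hinv).2.2.2.2.1
    rcases hk with h1 | h1 | h1 | h1
    · rw [h1]
    · rw [h1]; exact c1
    · rw [h1, inv_pow]; exact c2
    · rw [h1, inv_pow]; exact c3.trans c2
  have hval : Wd.val ⟨[], [h, k]⟩ = rho (l ^ i) * rho (l ^ j) := by
    unfold Wd.val
    simp only [List.map_nil, List.prod_nil, List.map_cons, List.prod_cons, one_mul, mul_one]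
    rw [a3, b3]
  have hlen : 1 < Wd.len ⟨[], [h, k]⟩ := by unfold Wd.len; simp
  rw [W_two, a4, b4]
  rcases le_total i j with hij | hij
  · rw [mul_comm]
    exact rule6_aux tc hG hl hl2 hi hij a2 hval hlen K L
  · exact rule6_aux tc hG hl hl2 hj hij a2 (by rw [hval, mul_comm]) hlen K L

end Pool.Agent.Lib.MP_eee7a8_ag.TB.C29
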